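import Pool.Agent.Helper26.UM.Stmts

/-! Project UM, row ULIM: limits of invariant means along ultrafilters. -/

set_option autoImplicit false

namespace Pool.Agent.Helper67.UM

open Cardinal Set Filter Topology Pool.Agent.Helper63.INV Pool.Agent.Helper26.UM

theorem im_mono {G : Type*} [Group G] {X : Type*} [MulAction G X] {M : Set X → ℝ}
    (h : IsIM G M) {A B : Set X} (hAB : A ⊆ B) : M A ≤ M B := by
  have h1 := h.2.2.1 A (B \ A) disjoint_sdiff_right
  rw [union_sdiff_cancel hAB] at h1
  have h2 := (h.1 (B \ A)).1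
  linarith

theorem st_ULIM : ST_ULIM := by
  classical
  intro G _ X _ A m c hc hm hA hA'
  have hex : ∀ (U : Ultrafilter X) (B : Set X), ∃ l : ℝ,
      Tendsto (fun x => m x B) (U : Filter X) (𝓝 l) := by
    intro U B
    have h0 : ((U.map (fun x => m x B) : Ultrafilter ℝ) : Filter ℝ) ≤ 𝓟 (Set.Icc (0 : ℝ) 1) := by
      rw [Ultrafilter.coe_map, le_principal_iff, Filter.mem_map]
      exact Filter.mem_of_superset Filter.univ_mem (fun x _ => (hm x).1 B)
    obtain ⟨l, _, hl⟩ := (isCompact_Icc (a := (0 : ℝ)) (b := 1)).ultrafilter_le_nhds _ h0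
    exact ⟨l, hl⟩
  choose F hF using hex
  refine ⟨F, ?_, ?_⟩
  · intro U V hUV
    by_contra hne
    obtain ⟨I, hI, hI'⟩ : ∃ I, I ∈ U ∧ I ∉ V := by
      by_contra h
      push Not at h
      apply hne
      have h1 : (V : Filter X) ≤ U := fun s hs => h s hs
      exact (Ultrafilter.coe_le_coe.1 h1).symm
    have hIV : Iᶜ ∈ V := Ultrafilter.compl_mem_iff_notMem.2 hI'
    have h1 : c ≤ F U (⋃ x ∈ I, A x) := by
      apply ge_of_tendsto (hF U _)
      apply Filter.mem_of_superset hI
      intro x hx
      have h3 : A x ⊆ ⋃ x ∈ I, A x := Set.subset_biUnion_of_mem (u := fun x => A x) hx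
      exact (hA x).trans (im_mono (hm x) h3)
    have h2 : F V (⋃ x ∈ I, A x) ≤ c / 2 := by
      apply le_of_tendsto (hF V _)
      apply Filter.mem_of_superset hIV
      intro x hx
      have h3 : (⋃ x ∈ I, A x) ⊆ ⋃ y ∈ {y : X | y ≠ x}, A y := by
        apply Set.biUnion_subset_biUnion_left
        intro y hy
        show y ≠ x
        intro h
        subst h
        exact hx hy
      exact (im_mono (hm x) h3).trans (hA' x)
    rw [hUV] at h1
    linarith
  · intro U
    refine ⟨fun B => ⟨ge_of_tendsto' (hF U B) (fun x => ((hm x).1 B).1),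
      le_of_tendsto' (hF U B) (fun x => ((hm x).1 B).2)⟩, ?_, ?_, ?_⟩
    · apply tendsto_nhds_unique (hF U univ)
      have h1 : (fun x => m x (univ : Set X)) = fun _ => (1 : ℝ) := by
        funext x
        exact (hm x).2.1
      rw [h1]
      exact tendsto_const_nhds
    · intro B C hBC
      apply tendsto_nhds_unique (hF U (B ∪ C))
      have h1 : (fun x => m x (B ∪ C)) = fun x => m x B + m x C := by
        funext x
        exact (hm x).2.2.1 B C hBC
      rw [h1]
      exact (hF U B).add (hF U C)
    · intro g B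
      apply tendsto_nhds_unique (hF U ((fun x : X => g • x) ⁻¹' B))
      have h1 : (fun x => m x ((fun x : X => g • x) ⁻¹' B)) = fun x => m x B := by
        funext x
        exact (hm x).2.2.2 g B
      rw [h1]
      exact hF U B

end Pool.Agent.Helper67.UM
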